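import Mathlib

namespace Pool.Agent.Results.MP_505b57_nt.QuadraticOddPrime

open Polynomial

/-- The forward orbit of `z` under the polynomial map `f`. -/
def forwardOrbit {K : Type*} [Field K] (f : K[X]) (z : K) : Set K :=
  Set.range fun n : ℕ => (fun w => f.eval w)^[n] z

/-- `f` is postcritically finite: every zero of its derivative has a finite forward orbit.
(The remaining critical point, infinity, is fixed by a polynomial.) -/
def IsPCF {K : Type*} [Field K] (f : K[X]) : Prop :=
  ∀ z : K, f.derivative.eval z = 0 → (forwardOrbit f z).Finite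

/-- The polynomials of degree `d` over `K`. -/
def DegPoly (K : Type*) [Field K] (d : ℕ) : Type _ := {f : K[X] // f.natDegree = d}

/-- `g` is the conjugate of `f` by the affine map `z ↦ a z + b`: `f (a z + b) = a g(z) + b`. -/
def AffConj {K : Type*} [Field K] (f g : K[X]) : Prop :=
  ∃ a b : K, a ≠ 0 ∧ f.comp (C a * X + C b) = C a * g + C b

section Conj

variable {K : Type*} [Field K]

lemma AffConj.refl (f : K[X]) : AffConj f f := ⟨1, 0, one_ne_zero, by simp⟩

lemma AffConj.symm {f g : K[X]} (h : AffConj f g) : AffConj g f := by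
  obtain ⟨a, b, ha, h⟩ := h
  refine ⟨a⁻¹, -(a⁻¹ * b), inv_ne_zero ha, ?_⟩
  have h1 := congrArg (fun q => q.comp (C a⁻¹ * X + C (-(a⁻¹ * b)))) h
  simp only [comp_assoc, add_comp, mul_comp, C_comp, X_comp] at h1
  have e : (C a * (C a⁻¹ * X + C (-(a⁻¹ * b))) + C b : K[X]) = X := by
    rw [mul_add, ← mul_assoc, ← C_mul, ← C_mul, mul_inv_cancel₀ ha, C_1, one_mul, add_assoc,
      ← C_add]
    have : a * -(a⁻¹ * b) + b = 0 := by field_simp; ring
    rw [this, C_0, add_zero]
  rw [e, comp_X] at h1
  rw [h1]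
  have e2 : (C a⁻¹ * (C a * g.comp (C a⁻¹ * X + C (-(a⁻¹ * b))) + C b) + C (-(a⁻¹ * b)) : K[X]) =
      g.comp (C a⁻¹ * X + C (-(a⁻¹ * b))) := by
    rw [mul_add, ← mul_assoc, ← C_mul, ← C_mul, inv_mul_cancel₀ ha, C_1, one_mul, add_assoc,
      ← C_add]
    have : a⁻¹ * b + -(a⁻¹ * b) = 0 := by ring
    rw [this, C_0, add_zero]
  exact e2.symm

lemma AffConj.trans {f g h : K[X]} (h1 : AffConj f g) (h2 : AffConj g h) : AffConj f h := by
  obtain ⟨a, b, ha, h1⟩ := h1
  obtain ⟨a', b', ha', h2⟩ := h2
  refine ⟨a * a', a * b' + b, mul_ne_zero ha ha', ?_⟩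
  have h3 := congrArg (fun q => q.comp (C a' * X + C b')) h1
  simp only [comp_assoc, add_comp, mul_comp, C_comp, X_comp] at h3
  have e : (C (a * a') * X + C (a * b' + b) : K[X]) = C a * (C a' * X + C b') + C b := by
    simp only [C_mul, C_add]; ring
  rw [e, h3, h2]
  simp only [C_mul, C_add]; ring

lemma AffConj.map {L : Type*} [Field L] (σ : K →+* L) {f g : K[X]} (h : AffConj f g) :
    AffConj (f.map σ) (g.map σ) := by
  obtain ⟨a, b, ha, h⟩ := h
  refine ⟨σ a, σ b, (map_ne_zero σ).mpr ha, ?_⟩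
  have := congrArg (Polynomial.map σ) h
  simpa [Polynomial.map_comp] using this

end Conj

/-- Affine conjugacy as an equivalence relation on polynomials of degree `d`. -/
instance conjSetoid (K : Type*) [Field K] (d : ℕ) : Setoid (DegPoly K d) where
  r f g := AffConj f.1 g.1
  iseqv := ⟨fun f => AffConj.refl f.1, fun h => h.symm, fun h1 h2 => h1.trans h2⟩

/-- The geometric points of the moduli space `P_d`: polynomials of degree `d` over `K`
(an algebraically closed field in the application) up to conjugation by affine maps. -/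
def Moduli (K : Type*) [Field K] (d : ℕ) : Type _ := Quotient (conjSetoid K d)

/-- The action of a field automorphism on `Moduli K d`, induced by acting on coefficients. -/
noncomputable def Moduli.act {K : Type*} [Field K] {d : ℕ} (σ : K ≃+* K) : Moduli K d → Moduli K d :=
  Quotient.map (fun f => ⟨f.1.map (σ : K →+* K), by
      rw [Polynomial.natDegree_map]; exact f.2⟩)
    (fun _ _ h => AffConj.map (σ : K →+* K) h)

variable (p : ℕ) [Fact p.Prime] (d : ℕ)

/-- An algebraic closure of `ℚ_p`. -/
abbrev QpBar : Type := AlgebraicClosure ℚ_[p]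

/-- The `ℚ_p`-rational points of `P_d`: the geometric points fixed by the absolute Galois group
of `ℚ_p`. -/
def rationalPoints : Set (Moduli (QpBar p) d) :=
  {ξ | ∀ σ : QpBar p ≃ₐ[ℚ_[p]] QpBar p, Moduli.act (σ : QpBar p ≃+* QpBar p) ξ = ξ}

/-- The classes of postcritically finite polynomials in `P_d`. -/
def pcfPoints : Set (Moduli (QpBar p) d) :=
  {ξ | ∃ f : DegPoly (QpBar p) d, (Quotient.mk (conjSetoid (QpBar p) d) f : Moduli (QpBar p) d) = ξ
    ∧ IsPCF f.1}

variable {p}

section Core

variable {p : ℕ} [hp : Fact p.Prime]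

/-- The critical orbit of `z ^ 2 + c`. -/
def orb {K : Type*} [CommRing K] (c : K) : ℕ → K
  | 0 => 0
  | n + 1 => orb c n ^ 2 + c

lemma orb_map {K L : Type*} [CommRing K] [CommRing L] (f : K →+* L) (c : K) (n : ℕ) :
    f (orb c n) = orb (f c) n := by
  induction n with
  | zero => simp [orb]
  | succ n ih => simp [orb, ih]

lemma orb_add_eq {K : Type*} [CommRing K] (c : K) {a b : ℕ} (h : orb c a = orb c b) (j : ℕ) :
    orb c (a + j) = orb c (b + j) := by
  induction j with
  | zero => simpa using h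
  | succ j ih =>
    rw [← add_assoc, ← add_assoc, orb, orb, ih]

lemma orb_period {K : Type*} [CommRing K] (c : K) {a m : ℕ} (h : orb c (a + m) = orb c a) (k : ℕ)
    {n : ℕ} (hn : a ≤ n) : orb c (n + k * m) = orb c n := by
  induction k with
  | zero => simp
  | succ k ih =>
    obtain ⟨j, hj⟩ := Nat.exists_eq_add_of_le hn
    have h1 := orb_add_eq c h (j + k * m)
    have e1 : n + (k + 1) * m = a + m + (j + k * m) := by rw [hj]; ring
    have e2 : a + (j + k * m) = n + k * m := by rw [hj]; ring
    rw [e1, h1, e2, ih]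

/-- Difference of two orbit points after `r` more steps. -/
lemma orb_diff {K : Type*} [CommRing K] (c : K) (n m r : ℕ) :
    orb c (n + m + r) - orb c (n + r) = (orb c (n + m) - orb c n) *
      ∏ j ∈ Finset.range r, (orb c (n + m + j) + orb c (n + j)) := by
  induction r with
  | zero => simp
  | succ r ih =>
    rw [Finset.prod_range_succ, ← mul_assoc, ← ih, ← add_assoc, ← add_assoc, orb, orb]
    ring

/-- Pigeonhole in a finite ring. -/
lemma eventually_periodic {S : Type*} [CommRing S] [Fintype S] (c : S) (n : ℕ)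
    (hn : Fintype.card S ≤ n) : orb c (n + (Fintype.card S).factorial) = orb c n := by
  classical
  obtain ⟨a, b, hne, hab⟩ : ∃ a b : Fin (Fintype.card S + 1), a ≠ b ∧
      orb c (a : ℕ) = orb c (b : ℕ) := by
    exact Fintype.exists_ne_map_eq_of_card_lt (fun a : Fin (Fintype.card S + 1) => orb c (a : ℕ))
      (by simp)
  wlog hlt : (a : ℕ) < b generalizing a b
  · exact this b a hne.symm hab.symm (by
      have : (a : ℕ) ≠ b := fun h => hne (Fin.ext h)
      omega)
  obtain ⟨m, hm⟩ := Nat.exists_eq_add_of_le hlt.le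
  have hm1 : 1 ≤ m := by omega
  have hm2 : m ≤ Fintype.card S := by have := b.2; omega
  have hper : orb c ((a : ℕ) + m) = orb c (a : ℕ) := by rw [← hm, ← hab]
  obtain ⟨k, hk⟩ := Nat.dvd_factorial (by omega : 0 < m) hm2
  rw [hk, mul_comm]
  exact orb_period c hper k (by omega)

lemma ker_toZModPow (n : ℕ) {x : ℤ_[p]} (h : PadicInt.toZModPow n x = 0) :
    ∃ w, x = (p : ℤ_[p]) ^ n * w := by
  have : x ∈ RingHom.ker (PadicInt.toZModPow n : ℤ_[p] →+* ZMod (p ^ n)) := h
  rw [PadicInt.ker_toZModPow, Ideal.mem_span_singleton] at this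
  exact this

lemma unit_of_not_dvd {x : ℤ_[p]} (h : ¬ (p : ℤ_[p]) ∣ x) : IsUnit x := by
  rw [← PadicInt.norm_lt_one_iff_dvd] at h
  rw [PadicInt.isUnit_iff]
  exact le_antisymm (PadicInt.norm_le_one x) (not_lt.mp h)

lemma p_ne_zero' : (p : ℤ_[p]) ≠ 0 := PadicInt.prime_p.ne_zero

lemma unit_natCast {k : ℕ} (h : ¬ p ∣ k) : ¬ (p : ℤ_[p]) ∣ (k : ℤ_[p]) := by
  intro hd
  rw [← PadicInt.norm_lt_one_iff_dvd, PadicInt.norm_natCast_lt_one_iff] at hd
  exact h hd

/-- `M` is a good period for the orbit of `0` modulo `p ^ 2` from time `n` on. -/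
def Good (c : ℤ_[p]) (n M : ℕ) : Prop :=
  (∀ j, PadicInt.toZModPow 2 (orb c (n + j + M)) = PadicInt.toZModPow 2 (orb c (n + j))) ∧
    PadicInt.toZModPow 2 (∏ j ∈ Finset.range M, (2 * orb c (n + j))) = 1

lemma Good.per {c : ℤ_[p]} {n M : ℕ} (h : Good c n M) (l j : ℕ) :
    PadicInt.toZModPow 2 (orb c (n + j + l * M)) = PadicInt.toZModPow 2 (orb c (n + j)) := by
  induction l with
  | zero => simp
  | succ l ih =>
    have := h.1 (j + l * M)
    have e1 : n + (j + l * M) + M = n + j + (l + 1) * M := by ring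
    have e2 : n + (j + l * M) = n + j + l * M := by ring
    rw [e1, e2, ih] at this
    exact this

lemma Good.prod {c : ℤ_[p]} {n M : ℕ} (h : Good c n M) (l : ℕ) :
    PadicInt.toZModPow 2 (∏ j ∈ Finset.range (l * M), (2 * orb c (n + j))) = 1 := by
  induction l with
  | zero => simp
  | succ l ih =>
    have e : (l + 1) * M = l * M + M := by ring
    rw [e, Finset.prod_range_add, map_mul, ih, one_mul]
    rw [← h.2, map_prod, map_prod]
    apply Finset.prod_congr rfl
    intro j _
    rw [map_mul, map_mul]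
    congr 1
    have := h.per l j
    have e1 : n + (l * M + j) = n + j + l * M := by ring
    rw [e1, this]

lemma Good.mul {c : ℤ_[p]} {n M : ℕ} (h : Good c n M) (l : ℕ) : Good c n (l * M) :=
  ⟨fun j => h.per l j, h.prod l⟩

/-- The difference over one good period is multiplied by a `1`-unit. -/
lemma Good.diff_one {c : ℤ_[p]} {n M : ℕ} (h : Good c n M) (l : ℕ) :
    ∃ w, orb c (n + l * M + M) - orb c (n + l * M) =
      (orb c (n + M) - orb c n) * (1 + (p : ℤ_[p]) ^ 2 * w) := by
  have h1 := orb_diff c n M (l * M)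
  have e1 : n + M + l * M = n + l * M + M := by ring
  rw [e1] at h1
  rw [h1]
  have h2 : PadicInt.toZModPow 2 (∏ j ∈ Finset.range (l * M),
      (orb c (n + M + j) + orb c (n + j)) - 1) = 0 := by
    rw [map_sub, map_one, sub_eq_zero, ← h.prod l, map_prod, map_prod]
    apply Finset.prod_congr rfl
    intro j _
    rw [map_add, map_mul]
    have := h.1 j
    have e : n + M + j = n + j + M := by ring
    rw [e, this, map_ofNat]
    ring
  obtain ⟨w, hw⟩ := ker_toZModPow 2 h2
  exact ⟨w, by rw [← hw]; ring⟩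

lemma Good.diff {c : ℤ_[p]} {n M : ℕ} (h : Good c n M) (k : ℕ) :
    ∃ w, orb c (n + k * M) - orb c n =
      (orb c (n + M) - orb c n) * (k + (p : ℤ_[p]) ^ 2 * w) := by
  induction k with
  | zero => exact ⟨0, by simp⟩
  | succ k ih =>
    obtain ⟨w, hw⟩ := ih
    obtain ⟨v, hv⟩ := h.diff_one k
    refine ⟨w + v, ?_⟩
    have e : n + (k + 1) * M = n + k * M + M := by ring
    rw [e]
    have : orb c (n + k * M + M) - orb c n = (orb c (n + k * M + M) - orb c (n + k * M)) +
      (orb c (n + k * M) - orb c n) := by ring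
    rw [this, hw, hv]
    push_cast
    ring

/-- No new periods beyond a good period. -/
lemma Good.no_period {c : ℤ_[p]} {n : ℕ} (k : ℕ) : ∀ M, Good c n M → 1 ≤ k →
    orb c (n + M) ≠ orb c n → orb c (n + k * M) ≠ orb c n := by
  induction k using Nat.strong_induction_on with
  | _ k ih =>
    intro M h hk hne
    have hδ : orb c (n + M) - orb c n ≠ 0 := sub_ne_zero.mpr hne
    by_cases hpk : p ∣ k
    · obtain ⟨k', rfl⟩ := hpk
      have hp2 := hp.out.two_le
      have hk' : 1 ≤ k' := by
        rcases Nat.eq_zero_or_pos k' with h0 | h0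
        · subst h0; simp at hk
        · exact h0
      have hlt : k' < p * k' := by nlinarith
      have hne' : orb c (n + p * M) ≠ orb c n := by
        obtain ⟨w, hw⟩ := h.diff p
        rw [← sub_ne_zero, hw]
        apply mul_ne_zero hδ
        have e : (p : ℤ_[p]) + (p : ℤ_[p]) ^ 2 * w = p * (1 + p * w) := by ring
        rw [e]
        apply mul_ne_zero p_ne_zero'
        intro h0
        have : (p : ℤ_[p]) ∣ 1 := ⟨-w, by linear_combination h0⟩
        exact PadicInt.prime_p.not_dvd_one this
      have := ih k' hlt (p * M) (h.mul p) hk' hne'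
      have e : p * k' * M = k' * (p * M) := by ring
      rw [e]; exact this
    · obtain ⟨w, hw⟩ := h.diff k
      rw [← sub_ne_zero, hw]
      apply mul_ne_zero hδ
      intro h0
      apply unit_natCast (p := p) hpk
      exact ⟨-(p * w), by linear_combination h0⟩


/-- The universal preperiod. -/
def tl (p : ℕ) : ℕ := p ^ 2

/-- The universal period. -/
def pr (p : ℕ) : ℕ := Nat.totient (p ^ 2) * (p ^ 2).factorial

instance neZero_sq : NeZero (p ^ 2) := ⟨pow_ne_zero 2 hp.out.ne_zero⟩

lemma two_unit (hp2 : p ≠ 2) : ¬ (p : ℤ_[p]) ∣ 2 := by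
  have h : ¬ p ∣ 2 := by
    intro hd
    exact hp2 ((Nat.prime_dvd_prime_iff_eq hp.out Nat.prime_two).mp hd)
  exact_mod_cast unit_natCast (p := p) h

lemma isUnit_two (hp2 : p ≠ 2) : IsUnit (2 : ℤ_[p]) := unit_of_not_dvd (two_unit hp2)

lemma isUnit_of_map {x y : ℤ_[p]} (h : PadicInt.toZModPow 2 x = PadicInt.toZModPow 2 y)
    (hy : IsUnit y) : IsUnit x := by
  obtain ⟨w, hw⟩ := ker_toZModPow (p := p) 2 (x := x - y) (by rw [map_sub, h, sub_self])
  apply unit_of_not_dvd
  intro hd
  have : (p : ℤ_[p]) ∣ y := by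
    have e : y = x - (p : ℤ_[p]) ^ 2 * w := by rw [← hw]; ring
    rw [e]
    exact dvd_sub hd (Dvd.intro _ (by ring : (p : ℤ_[p]) * (p * w) = p ^ 2 * w))
  exact PadicInt.prime_p.not_isUnit (isUnit_of_dvd_unit this hy)

/-- If `0` never returns to its residue disc, the universal pair is good for the orbit. -/
lemma good_of_units (hp2 : p ≠ 2) {c : ℤ_[p]} (hu : ∀ n, 1 ≤ n → IsUnit (orb c n)) (k : ℕ) :
    Good c (tl p + k * pr p) (pr p) := by
  set F := (p ^ 2).factorial with hF
  have hper : ∀ j, PadicInt.toZModPow 2 (orb c (tl p + j + F)) =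
      PadicInt.toZModPow 2 (orb c (tl p + j)) := by
    intro j
    rw [orb_map, orb_map]
    have := eventually_periodic (PadicInt.toZModPow 2 c) (tl p + j)
      (by rw [ZMod.card, tl]; omega)
    rw [ZMod.card] at this
    exact this
  have hper' : ∀ l j, PadicInt.toZModPow 2 (orb c (tl p + j + l * F)) =
      PadicInt.toZModPow 2 (orb c (tl p + j)) := by
    intro l
    induction l with
    | zero => simp
    | succ l ih =>
      intro j
      have := hper (j + l * F)
      have e1 : tl p + (j + l * F) + F = tl p + j + (l + 1) * F := by ring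
      have e2 : tl p + (j + l * F) = tl p + j + l * F := by ring
      rw [e1, e2, ih] at this
      exact this
  -- product over one block
  have hprod : ∀ l, PadicInt.toZModPow 2 (∏ j ∈ Finset.range (l * F), (2 * orb c (tl p + j))) =
      (PadicInt.toZModPow 2 (∏ j ∈ Finset.range F, (2 * orb c (tl p + j)))) ^ l := by
    intro l
    induction l with
    | zero => simp
    | succ l ih =>
      have e : (l + 1) * F = l * F + F := by ring
      rw [e, Finset.prod_range_add, map_mul, ih]
      refine Eq.trans ?_ (pow_succ _ _).symm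
      congr 1
      rw [map_prod, map_prod]
      apply Finset.prod_congr rfl
      intro j _
      rw [map_mul, map_mul]
      congr 1
      have := hper' l j
      have e1 : tl p + (l * F + j) = tl p + j + l * F := by ring
      rw [e1, this]
  have hunit : IsUnit (PadicInt.toZModPow 2 (∏ j ∈ Finset.range F, (2 * orb c (tl p + j))) :
      ZMod (p ^ 2)) := by
    apply IsUnit.map
    rw [Finset.prod_mul_distrib]
    apply IsUnit.mul
    · rw [Finset.prod_const]
      exact (isUnit_two hp2).pow _
    · apply (Finset.prod_induction _ IsUnit (fun a b ha hb => ha.mul hb) isUnit_one)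
      intro j _
      apply hu
      have : 0 < p ^ 2 := pow_pos hp.out.pos 2
      rw [tl]; omega
  have hone : PadicInt.toZModPow 2 (∏ j ∈ Finset.range (pr p), (2 * orb c (tl p + j))) = 1 := by
    rw [pr, hprod]
    obtain ⟨u, hu'⟩ := hunit
    rw [← hu', ← Units.val_pow_eq_pow_val, ZMod.pow_totient, Units.val_one]
  have hshift : ∀ j, PadicInt.toZModPow 2 (orb c (tl p + k * pr p + j)) =
      PadicInt.toZModPow 2 (orb c (tl p + j)) := by
    intro j
    have := hper' (k * Nat.totient (p ^ 2)) j
    rw [← this]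
    congr 2
    rw [pr]; ring
  refine ⟨?_, ?_⟩
  · intro j
    rw [hshift j]
    have := hshift (j + pr p)
    have e : tl p + k * pr p + (j + pr p) = tl p + k * pr p + j + pr p := by ring
    rw [e] at this
    rw [this]
    have := hper' (Nat.totient (p ^ 2)) j
    rw [← this]
    congr 2
    rw [pr]; ring
  · rw [← hone, map_prod, map_prod]
    apply Finset.prod_congr rfl
    intro j _
    rw [map_mul, map_mul, hshift]

lemma pr_pos : 1 ≤ pr p := by
  rw [pr]
  exact Nat.mul_pos (Nat.totient_pos.mpr (pow_pos hp.out.pos 2)) (Nat.factorial_pos _)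

/-- Strictly preperiodic residue case. -/
lemma case_units (hp2 : p ≠ 2) {c : ℤ_[p]} (hu : ∀ n, 1 ≤ n → IsUnit (orb c n))
    {a l : ℕ} (hl : 1 ≤ l) (hal : orb c (a + l) = orb c a) :
    orb c (tl p + pr p) = orb c (tl p) := by
  have h1 := pr_pos (p := p)
  set M := pr p with hM
  have hg := good_of_units hp2 hu a
  have hn : a ≤ tl p + a * M := by nlinarith
  have h2 : orb c (tl p + a * M + l * M) = orb c (tl p + a * M) := by
    have := orb_period c hal M hn
    rw [mul_comm l M]; exact this
  have h3 : orb c (tl p + a * M + M) = orb c (tl p + a * M) := by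
    by_contra hcon
    exact hg.no_period l M hl hcon h2
  have h4 := orb_diff c (tl p) M (a * M)
  have e : tl p + M + a * M = tl p + a * M + M := by ring
  rw [e, h3, sub_self] at h4
  have h5 : ∏ j ∈ Finset.range (a * M), (orb c (tl p + M + j) + orb c (tl p + j)) ≠ 0 := by
    rw [Finset.prod_ne_zero_iff]
    intro j _
    have hg0 := good_of_units hp2 hu 0
    have hj := hg0.1 j
    rw [zero_mul, add_zero] at hj
    have hunit : IsUnit (orb c (tl p + M + j) + orb c (tl p + j)) := by
      apply isUnit_of_map (y := 2 * orb c (tl p + j))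
      · have e1 : tl p + M + j = tl p + j + M := by ring
        rw [map_add, e1, hj, map_mul, map_ofNat]; ring
      · apply (isUnit_two hp2).mul
        apply hu
        have : 0 < p ^ 2 := pow_pos hp.out.pos 2
        rw [tl]; omega
    exact hunit.ne_zero
  have h6 : orb c (tl p + M) - orb c (tl p) = 0 := by
    by_contra hcon
    exact (mul_ne_zero hcon h5) h4.symm
  exact sub_eq_zero.mp h6

/-- Case where `0` returns to its residue disc: then it is periodic. -/
lemma case_return (hp2 : p ≠ 2) {c : ℤ_[p]} {m : ℕ} (hm : 1 ≤ m) (hpm : (p : ℤ_[p]) ∣ orb c m)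
    (hmin : ∀ j, 1 ≤ j → j < m → ¬ (p : ℤ_[p]) ∣ orb c j)
    {a l : ℕ} (hl : 1 ≤ l) (hal : orb c (a + l) = orb c a) : orb c m = 0 := by
  by_contra hne
  set ρ := ‖orb c m‖ with hρ
  have hρ0 : 0 < ρ := norm_pos_iff.mpr hne
  have hρ1 : ρ < 1 := (PadicInt.norm_lt_one_iff_dvd _).mpr hpm
  -- residues are periodic
  have hdvd : ∀ n, (p : ℤ_[p]) ∣ orb c (n + m) - orb c n := by
    intro n
    have := orb_diff c 0 m n
    simp only [zero_add] at this
    have e : m + n = n + m := by ring
    rw [e] at this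
    rw [this]
    apply Dvd.dvd.mul_right
    simpa [orb] using hpm
  have hdvd' : ∀ k j, (p : ℤ_[p]) ∣ orb c (k * m + j) - orb c j := by
    intro k
    induction k with
    | zero => intro j; simp
    | succ k ih =>
      intro j
      have h1 := hdvd (k * m + j)
      have e : (k + 1) * m + j = k * m + j + m := by ring
      rw [e]
      have e2 : orb c (k * m + j + m) - orb c j = (orb c (k * m + j + m) - orb c (k * m + j)) +
        (orb c (k * m + j) - orb c j) := by ring
      rw [e2]
      exact dvd_add h1 (ih j)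
  have hnorm2 : ‖(2 : ℤ_[p])‖ = 1 := PadicInt.isUnit_iff.mp (isUnit_two hp2)
  -- the multiplier over one turn
  have hstep : ∀ k, ‖orb c ((k + 2) * m) - orb c ((k + 1) * m)‖ =
      ‖orb c ((k + 1) * m) - orb c (k * m)‖ * ‖orb c ((k + 1) * m) + orb c (k * m)‖ := by
    intro k
    have h1 := orb_diff c (k * m) m m
    have e1 : k * m + m + m = (k + 2) * m := by ring
    have e2 : k * m + m = (k + 1) * m := by ring
    rw [e1, e2] at h1
    rw [h1, norm_mul]
    congr 1
    obtain ⟨m', rfl⟩ : ∃ m', m = m' + 1 := ⟨m - 1, by omega⟩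
    rw [Finset.prod_range_succ', norm_mul, norm_prod]
    simp only [add_zero]
    rw [Finset.prod_eq_one, one_mul]
    intro j hj
    rw [Finset.mem_range] at hj
    rw [← PadicInt.isUnit_iff]
    apply unit_of_not_dvd
    intro hd
    have h2 := hdvd' (k + 1) (j + 1)
    have h3 := hdvd' k (j + 1)
    have h4 : (p : ℤ_[p]) ∣ 2 * orb c (j + 1) := by
      have e : 2 * orb c (j + 1) = (orb c ((k + 1) * (m' + 1) + (j + 1)) +
        orb c (k * (m' + 1) + (j + 1))) - (orb c ((k + 1) * (m' + 1) + (j + 1)) - orb c (j + 1)) -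
        (orb c (k * (m' + 1) + (j + 1)) - orb c (j + 1)) := by ring
      rw [e]
      exact dvd_sub (dvd_sub hd h2) h3
    rcases PadicInt.prime_p.dvd_or_dvd h4 with h5 | h5
    · exact two_unit hp2 h5
    · exact hmin (j + 1) (by omega) (by omega) h5
  have key : ∀ k, ‖orb c ((k + 1) * m) - orb c (k * m)‖ = ρ ^ (k + 1) ∧
      ‖orb c ((k + 1) * m)‖ = ρ := by
    intro k
    induction k with
    | zero => simp [orb, hρ]
    | succ k ih =>
      obtain ⟨h1, h2⟩ := ih
      have hsum : ‖orb c ((k + 1) * m) + orb c (k * m)‖ = ρ := by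
        rcases Nat.eq_zero_or_pos k with rfl | hk
        · simp [orb, hρ]
        · have e : orb c ((k + 1) * m) + orb c (k * m) = 2 * orb c ((k + 1) * m) +
            -(orb c ((k + 1) * m) - orb c (k * m)) := by ring
          have hlt : ρ ^ (k + 1) < ρ := by
            calc ρ ^ (k + 1) = ρ ^ k * ρ := pow_succ _ _
              _ < 1 * ρ := by
                apply mul_lt_mul_of_pos_right _ hρ0
                exact pow_lt_one₀ hρ0.le hρ1 (by omega)
              _ = ρ := one_mul _
          rw [e, PadicInt.norm_add_eq_max_of_ne]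
          · rw [norm_neg, norm_mul, hnorm2, one_mul, h1, h2]
            exact max_eq_left hlt.le
          · rw [norm_neg, norm_mul, hnorm2, one_mul, h1, h2]
            exact hlt.ne'
      have h3 := hstep k
      have e1 : k + 1 + 1 = k + 2 := rfl
      rw [e1]
      rw [h1, hsum] at h3
      refine ⟨by rw [h3]; ring, ?_⟩
      have e : orb c ((k + 2) * m) = orb c ((k + 1) * m) +
        (orb c ((k + 2) * m) - orb c ((k + 1) * m)) := by ring
      have hlt : ρ ^ (k + 1) * ρ < ρ := by
        calc ρ ^ (k + 1) * ρ < 1 * ρ := by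
                apply mul_lt_mul_of_pos_right _ hρ0
                exact pow_lt_one₀ hρ0.le hρ1 (by omega)
              _ = ρ := one_mul _
      rw [e, PadicInt.norm_add_eq_max_of_ne]
      · rw [h3, h2]; exact max_eq_left hlt.le
      · rw [h3, h2]; exact hlt.ne'
  -- contradiction
  have hA : ∀ j, orb c (a * m + l * m + j) = orb c (a * m + j) := by
    intro j
    have hle : a ≤ a * m + j := by nlinarith
    have := orb_period c hal m hle
    rw [← this]
    congr 1; ring
  have h1 := (key a).1
  have h2 := (key (a + l)).1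
  have e1 : (a + l) * m = a * m + l * m + 0 := by ring
  have e2 : (a + l + 1) * m = a * m + l * m + m := by ring
  have e3 : (a + 1) * m = a * m + m := by ring
  rw [e1, e2, hA, hA, add_zero] at h2
  rw [e3, h2] at h1
  have := pow_right_injective₀ hρ0 hρ1.ne h1
  omega

lemma residue_period_le {c : ℤ_[p]} {m : ℕ} (hpm : (p : ℤ_[p]) ∣ orb c m)
    (hmin : ∀ j, 1 ≤ j → j < m → ¬ (p : ℤ_[p]) ∣ orb c j) : m ≤ p := by
  classical
  by_contra hcon
  push Not at hcon
  have hz : ∀ x : ℤ_[p], (p : ℤ_[p]) ∣ x ↔ PadicInt.toZMod x = 0 := by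
    intro x
    rw [← RingHom.mem_ker, PadicInt.ker_toZMod, PadicInt.maximalIdeal_eq_span_p,
      Ideal.mem_span_singleton]
  obtain ⟨a, b, hne, hab⟩ : ∃ a b : Fin (p + 1), a ≠ b ∧
      orb (PadicInt.toZMod c) (a : ℕ) = orb (PadicInt.toZMod c) (b : ℕ) := by
    exact Fintype.exists_ne_map_eq_of_card_lt
      (fun a : Fin (p + 1) => orb (PadicInt.toZMod c) (a : ℕ)) (by simp [ZMod.card])
  wlog hlt : (a : ℕ) < b generalizing a b
  · exact this b a hne.symm hab.symm (by
      have : (a : ℕ) ≠ b := fun h => hne (Fin.ext h)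
      omega)
  have hb := b.2
  have h1 := orb_add_eq (PadicInt.toZMod c) hab (m - b)
  have e : (b : ℕ) + (m - b) = m := by omega
  rw [e, ← orb_map, ← orb_map, (hz _).mp hpm, ← hz] at h1
  exact hmin _ (by omega) (by omega) h1

/-- Universal preperiodicity relation for integral parameters. -/
theorem universal (hp2 : p ≠ 2) {c : ℤ_[p]} {a l : ℕ} (hl : 1 ≤ l)
    (hal : orb c (a + l) = orb c a) : orb c (tl p + pr p) = orb c (tl p) := by
  classical
  by_cases h : ∃ m, 1 ≤ m ∧ (p : ℤ_[p]) ∣ orb c m
  · have hm := Nat.find_spec h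
    set m := Nat.find h
    have hmin : ∀ j, 1 ≤ j → j < m → ¬ (p : ℤ_[p]) ∣ orb c j := by
      intro j hj hjm hd
      exact Nat.find_min h hjm ⟨hj, hd⟩
    have h0 := case_return hp2 hm.1 hm.2 hmin hl hal
    have hle := residue_period_le hm.2 hmin
    have hdiv : m ∣ pr p := by
      rw [pr]
      apply Dvd.dvd.mul_left
      apply Nat.dvd_factorial (by omega)
      have := hp.out.two_le
      nlinarith
    obtain ⟨k, hk⟩ := hdiv
    have hper : orb c (0 + m) = orb c 0 := by rw [zero_add, h0]; rfl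
    rw [hk, mul_comm]
    exact orb_period c hper k (Nat.zero_le _)
  · push Not at h
    exact case_units hp2 (fun n hn => unit_of_not_dvd (h n hn)) hl hal

end Core


section Finite

variable {p : ℕ} [hp : Fact p.Prime]

lemma norm_orb {c : ℚ_[p]} (hc : 1 < ‖c‖) (n : ℕ) : ‖orb c (n + 1)‖ = ‖c‖ ^ (2 ^ n) := by
  induction n with
  | zero => simp [orb]
  | succ n ih =>
    have h1 : ‖orb c (n + 1) ^ 2‖ = ‖c‖ ^ (2 ^ (n + 1)) := by
      rw [norm_pow, ih, ← pow_mul, pow_succ]
    have h2 : ‖c‖ < ‖c‖ ^ (2 ^ (n + 1)) := by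
      calc ‖c‖ = ‖c‖ ^ 1 := (pow_one _).symm
        _ < ‖c‖ ^ (2 ^ (n + 1)) := by
          apply pow_lt_pow_right₀ hc
          exact Nat.one_lt_two_pow (by omega)
    rw [orb, Padic.add_eq_max_of_ne, h1]
    · exact max_eq_left h2.le
    · rw [h1]; exact h2.ne'

lemma norm_le_one_of_finite {c : ℚ_[p]} (h : (Set.range (orb c)).Finite) : ‖c‖ ≤ 1 := by
  by_contra hcon
  push Not at hcon
  apply Set.infinite_of_injective_forall_mem (f := fun n : ℕ => orb c (n + 1)) _ _ h
  · intro a b hab
    have h1 := congrArg norm hab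
    simp only [norm_orb hcon] at h1
    have h2 := pow_right_injective₀ (by linarith) hcon.ne' h1
    exact Nat.pow_right_injective le_rfl h2
  · intro n
    exact ⟨n + 1, rfl⟩

lemma natDegree_orb (K : Type*) [Field K] (n : ℕ) : (orb (X : K[X]) (n + 1)).natDegree = 2 ^ n := by
  induction n with
  | zero => simp [orb]
  | succ n ih =>
    rw [orb]
    have h1 : (orb (X : K[X]) (n + 1) ^ 2).natDegree = 2 ^ (n + 1) := by
      rw [natDegree_pow, ih, pow_succ]; ring
    rw [natDegree_add_eq_left_of_natDegree_lt, h1]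
    rw [h1, natDegree_X]
    exact Nat.one_lt_two_pow (by omega)

/-- For odd `p` only finitely many `c` in `ℚ_p` make `0` preperiodic under `z ^ 2 + c`. -/
theorem finite_params (hp2 : p ≠ 2) : {c : ℚ_[p] | (Set.range (orb c)).Finite}.Finite := by
  classical
  set Q : ℚ_[p][X] := orb X (tl p + pr p) - orb X (tl p) with hQ
  have hpos : 0 < p ^ 2 := pow_pos hp.out.pos 2
  have hpr := pr_pos (p := p)
  have hQ0 : Q ≠ 0 := by
    intro h0
    rw [hQ, sub_eq_zero] at h0
    have h1 := congrArg natDegree h0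
    obtain ⟨t, ht⟩ : ∃ t, tl p = t + 1 := ⟨tl p - 1, by rw [tl]; omega⟩
    have e : tl p + pr p = (t + pr p) + 1 := by omega
    rw [e, ht, natDegree_orb, natDegree_orb] at h1
    have := Nat.pow_right_injective le_rfl h1
    omega
  apply (Q.rootSet_finite ℚ_[p]).subset
  intro c hc
  rw [Set.mem_ofPred_eq] at hc
  rw [mem_rootSet]
  refine ⟨hQ0, ?_⟩
  have hc1 := norm_le_one_of_finite hc
  set c' : ℤ_[p] := ⟨c, hc1⟩ with hc'
  have hcc : ∀ n, ((orb c' n : ℤ_[p]) : ℚ_[p]) = orb c n := by
    intro n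
    have := orb_map (PadicInt.Coe.ringHom : ℤ_[p] →+* ℚ_[p]) c' n
    exact this
  obtain ⟨a, b, hab, hne⟩ : ∃ a b : ℕ, orb c a = orb c b ∧ a ≠ b := by
    by_contra hcon
    push Not at hcon
    exact Set.infinite_range_of_injective (fun a b h => hcon a b h) hc
  wlog hlt : a < b generalizing a b
  · exact this b a hab.symm hne.symm (by omega)
  obtain ⟨l, rfl⟩ := Nat.exists_eq_add_of_le hlt.le
  have h1 : orb c' (a + l) = orb c' a := by
    apply PadicInt.ext
    rw [hcc, hcc, hab]
  have h2 := universal hp2 (c := c') (by omega : 1 ≤ l) h1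
  have h3 : orb c (tl p + pr p) = orb c (tl p) := by rw [← hcc, ← hcc, h2]
  have he : ∀ n, aeval c (orb (X : ℚ_[p][X]) n) = orb c n := by
    intro n
    rw [coe_aeval_eq_eval]
    have := orb_map (evalRingHom c) (X : ℚ_[p][X]) n
    simpa using this
  rw [hQ, map_sub, he, he, h3, sub_self]

end Finite

section Reduction

variable {K : Type*} [Field K]

/-- Postcritical finiteness is invariant under affine conjugation. -/
lemma IsPCF.of_conj {f g : K[X]} (h : AffConj f g) (hf : IsPCF f) : IsPCF g := by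
  obtain ⟨a, b, ha, h⟩ := h
  intro z hz
  have hd := congrArg derivative h
  rw [derivative_comp] at hd
  simp only [derivative_add, derivative_mul, derivative_C, derivative_X, zero_mul, zero_add,
    mul_one, add_zero] at hd
  have h1 := congrArg (eval z) hd
  simp only [eval_mul, eval_comp, eval_add, eval_C, eval_X] at h1
  have h2 : f.derivative.eval (a * z + b) = 0 := by
    rw [hz, mul_zero] at h1
    rcases mul_eq_zero.mp h1 with h3 | h3
    · exact absurd h3 ha
    · exact h3
  have h3 := hf _ h2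
  have hsemi : ∀ n : ℕ, (fun w => f.eval w)^[n] (a * z + b) =
      a * (fun w => g.eval w)^[n] z + b := by
    intro n
    induction n with
    | zero => simp
    | succ n ih =>
      rw [Function.iterate_succ_apply', Function.iterate_succ_apply', ih]
      have h4 := congrArg (eval ((fun w => g.eval w)^[n] z)) h
      simpa only [eval_mul, eval_comp, eval_add, eval_C, eval_X] using h4
  apply (h3.image (fun y => a⁻¹ * (y - b))).subset
  rintro _ ⟨n, rfl⟩
  refine ⟨(fun w => f.eval w)^[n] (a * z + b), ⟨n, rfl⟩, ?_⟩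
  simp only [hsemi]
  field_simp
  ring

/-- The normal form `z ^ 2 + c` as an element of `DegPoly K 2`. -/
noncomputable def quad (c : K) : DegPoly K 2 := ⟨X ^ 2 + C c, natDegree_X_pow_add_C⟩

lemma quad_ext {u v w u' v' w' : K}
    (h : (C u * X ^ 2 + C v * X + C w : K[X]) = C u' * X ^ 2 + C v' * X + C w') :
    u = u' ∧ v = v' ∧ w = w' := by
  have h0 := congrArg (fun q => coeff q 2) h
  have h1 := congrArg (fun q => coeff q 1) h
  have h3 := congrArg (fun q => coeff q 0) h
  simp only [coeff_add, coeff_C_mul, coeff_X_pow, coeff_X, coeff_C] at h0 h1 h3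
  norm_num at h0 h1 h3
  exact ⟨h0, h1, h3⟩

lemma quad_conj {c c' : K} (h : AffConj (X ^ 2 + C c : K[X]) (X ^ 2 + C c')) (h2 : (2 : K) ≠ 0) :
    c = c' := by
  obtain ⟨a, b, ha, h⟩ := h
  have e : ((X ^ 2 + C c : K[X]).comp (C a * X + C b)) =
      C (a ^ 2) * X ^ 2 + C (2 * a * b) * X + C (b ^ 2 + c) := by
    simp only [add_comp, pow_comp, X_comp, C_comp, C_mul, C_add, C_pow]
    have : (C 2 : K[X]) = 2 := rfl
    rw [this]; ring
  have e' : (C a * (X ^ 2 + C c') + C b : K[X]) =
      C a * X ^ 2 + C 0 * X + C (a * c' + b) := by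
    simp only [C_mul, C_add, C_0]; ring
  rw [e, e'] at h
  obtain ⟨h0, h1, h3⟩ := quad_ext h
  have ha1 : a = 1 := by
    have : a * (a - 1) = 0 := by linear_combination h0
    rcases mul_eq_zero.mp this with h4 | h4
    · exact absurd h4 ha
    · exact sub_eq_zero.mp h4
  have hb : b = 0 := by
    rcases mul_eq_zero.mp h1 with h1 | h1
    · rcases mul_eq_zero.mp h1 with h1 | h1
      · exact absurd h1 h2
      · exact absurd h1 ha
    · exact h1
  rw [ha1, hb] at h3
  linear_combination h3

lemma exists_quad (h2 : (2 : K) ≠ 0) (f : DegPoly K 2) : ∃ c : K, AffConj f.1 (X ^ 2 + C c) := by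
  obtain ⟨f, hf⟩ := f
  have hf' : f = C (f.coeff 2) * X ^ 2 + C (f.coeff 1) * X + C (f.coeff 0) :=
    eq_quadratic_of_degree_le_two (degree_le_of_natDegree_le hf.le)
  set α := f.coeff 2 with hα
  set β := f.coeff 1
  set γ := f.coeff 0
  have hα0 : α ≠ 0 := by
    rw [hα, ← hf, coeff_natDegree]
    intro h0
    rw [leadingCoeff_eq_zero] at h0
    rw [h0, natDegree_zero] at hf
    exact absurd hf (by norm_num)
  refine ⟨α * γ + β / 2 - β ^ 2 / 4, α⁻¹, -(β / (2 * α)), inv_ne_zero hα0, ?_⟩
  have h4 : (4 : K) ≠ 0 := by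
    have : (4 : K) = 2 * 2 := by norm_num
    rw [this]; exact mul_ne_zero h2 h2
  change f.comp _ = _
  rw [hf']
  simp only [add_comp, mul_comp, pow_comp, X_comp, C_comp]
  have e1 : (C α * (C α⁻¹ * X + C (-(β / (2 * α)))) ^ 2 +
      C β * (C α⁻¹ * X + C (-(β / (2 * α)))) + C γ : K[X]) =
      C (α * α⁻¹ ^ 2) * X ^ 2 + C (2 * α * α⁻¹ * (-(β / (2 * α))) + β * α⁻¹) * X +
        C (α * (-(β / (2 * α))) ^ 2 + β * (-(β / (2 * α))) + γ) := by
    simp only [C_mul, C_add, C_pow]
    have : (C 2 : K[X]) = 2 := rfl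
    rw [this]; ring
  have e2 : (C α⁻¹ * (X ^ 2 + C (α * γ + β / 2 - β ^ 2 / 4)) + C (-(β / (2 * α))) : K[X]) =
      C α⁻¹ * X ^ 2 + C 0 * X + C (α⁻¹ * (α * γ + β / 2 - β ^ 2 / 4) + (-(β / (2 * α)))) := by
    simp only [C_mul, C_add, C_0]; ring
  rw [e1, e2]
  congr 2
  · congr 2
    field_simp
  · congr 2
    field_simp
    ring
  · field_simp
    ring

lemma iterate_quad (c : K) (n : ℕ) :
    (fun w => (X ^ 2 + C c : K[X]).eval w)^[n] 0 = orb c n := by
  induction n with
  | zero => rfl
  | succ n ih =>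
    rw [Function.iterate_succ_apply', ih, orb]
    simp

lemma orbit_finite_of_isPCF {c : K} (h : IsPCF (X ^ 2 + C c : K[X])) :
    (Set.range (orb c)).Finite := by
  have h1 := h 0 (by simp)
  have h2 : forwardOrbit (X ^ 2 + C c : K[X]) 0 = Set.range (orb c) := by
    rw [forwardOrbit]
    congr 1
    funext n
    exact iterate_quad c n
  rwa [h2] at h1

end Reduction

/-- Sanity check: the class of `z ^ 2` lies in `P_2(ℚ_p) ∩ PCF`. -/
theorem square_mem (p : ℕ) [Fact p.Prime] :
    (Quotient.mk (conjSetoid (QpBar p) 2) (quad 0) : Moduli (QpBar p) 2) ∈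
      rationalPoints p 2 ∩ pcfPoints p 2 := by
  refine ⟨?_, quad 0, rfl, ?_⟩
  · intro σ
    apply Quotient.sound
    change AffConj ((X ^ 2 + C 0 : (QpBar p)[X]).map
      ((σ : QpBar p ≃+* QpBar p) : QpBar p →+* QpBar p)) (X ^ 2 + C 0)
    have h4 : (X ^ 2 + C 0 : (QpBar p)[X]).map
        ((σ : QpBar p ≃+* QpBar p) : QpBar p →+* QpBar p) = X ^ 2 + C 0 := by
      simp
    rw [h4]
    exact AffConj.refl _
  · intro z hz
    change (forwardOrbit (X ^ 2 + C 0 : (QpBar p)[X]) z).Finite
    have hz' : z = 0 := by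
      have h1 : (X ^ 2 + C 0 : (QpBar p)[X]).derivative.eval z = 0 := hz
      simpa using h1
    subst hz'
    apply (Set.finite_singleton (0 : QpBar p)).subset
    rintro _ ⟨n, rfl⟩
    simp only [Set.mem_singleton_iff]
    induction n with
    | zero => rfl
    | succ n ih => rw [Function.iterate_succ_apply', ih]; simp

/-- For every odd prime `p` the set `P_2(ℚ_p) ∩ PCF` is finite. -/
theorem result (p : ℕ) [Fact p.Prime] (hp : p ≠ 2) :
    (rationalPoints p 2 ∩ pcfPoints p 2).Finite := by
  classical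
  have hfin := finite_params (p := p) hp
  apply (hfin.image (fun c : ℚ_[p] =>
    (Quotient.mk (conjSetoid (QpBar p) 2) (quad (algebraMap ℚ_[p] (QpBar p) c)) :
      Moduli (QpBar p) 2))).subset
  rintro ξ ⟨hrat, f, rfl, hf⟩
  have h2 : (2 : QpBar p) ≠ 0 := two_ne_zero
  obtain ⟨c, hc⟩ := exists_quad h2 f
  have hpcf := IsPCF.of_conj hc hf
  have hclass : (Quotient.mk (conjSetoid (QpBar p) 2) f : Moduli (QpBar p) 2) =
      Quotient.mk (conjSetoid (QpBar p) 2) (quad c) := Quotient.sound hc
  have hfix : ∀ σ : QpBar p ≃ₐ[ℚ_[p]] QpBar p, σ c = c := by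
    intro σ
    have h1 := hrat σ
    rw [hclass] at h1
    have h3 : AffConj ((X ^ 2 + C c : (QpBar p)[X]).map
        ((σ : QpBar p ≃+* QpBar p) : QpBar p →+* QpBar p)) (X ^ 2 + C c) := Quotient.exact h1
    have h4 : (X ^ 2 + C c : (QpBar p)[X]).map
        ((σ : QpBar p ≃+* QpBar p) : QpBar p →+* QpBar p) = X ^ 2 + C (σ c) := by
      simp
    rw [h4] at h3
    exact quad_conj h3 h2
  obtain ⟨c₀, hc₀⟩ := (InfiniteGalois.mem_range_algebraMap_iff_fixed c).mpr hfix
  refine ⟨c₀, ?_, ?_⟩
  · rw [Set.mem_ofPred_eq]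
    have h1 := orbit_finite_of_isPCF hpcf
    rw [← hc₀] at h1
    have h3 : Set.range (orb (algebraMap ℚ_[p] (QpBar p) c₀)) =
        (algebraMap ℚ_[p] (QpBar p)) '' Set.range (orb c₀) := by
      rw [← Set.range_comp]
      congr 1
      funext n
      exact (orb_map (algebraMap ℚ_[p] (QpBar p)) c₀ n).symm
    rw [h3] at h1
    exact Set.Finite.of_finite_image h1 (algebraMap ℚ_[p] (QpBar p)).injective.injOn
  · rw [hclass, ← hc₀]

end Pool.Agent.Results.MP_505b57_nt.QuadraticOddPrime
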